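import Pool.Agent.helper52.WP.SpecN

set_option autoImplicit false

open Complex Metric Set Filter Topology MeasureTheory
open V3S (UF)
open WP

noncomputable section

namespace WPN

theorem NBD (hPIN : WPL.PIN_stmt) (hADH : WPL.ADH_stmt) (hCB1 : WPC.CB1_stmt)
    (hAFX : WPC.AFX_stmt) : NBD_stmt := by
  intro n C D hC hS x hx
  obtain ⟨r₁, hr₁, hev⟩ := (hPIN n C D hC hS).1 x hx
  obtain ⟨A, hA, hgood⟩ := hS.good
  have hρ : (1 : ℝ) ≤ ‖x‖ + 1 := by linarith [norm_nonneg x]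
  obtain ⟨K, hK, hAF⟩ := hAFX C (‖x‖ + 1) hC hρ
  set r : ℝ := min r₁ 1 / 2 with hr
  have hr0 : 0 < r := by
    have : 0 < min r₁ 1 := lt_min hr₁ one_pos
    positivity
  have hr1 : r ≤ 1 := by
    have : min r₁ 1 ≤ 1 := min_le_right _ _
    linarith
  have hr2 : 2 * r ≤ r₁ := by
    have : min r₁ 1 ≤ r₁ := min_le_left _ _
    linarith
  refine ⟨r, hr0, (‖x‖ + 1) + K / r, ?_⟩
  filter_upwards [hev] with m hm
  have hfar : ∀ y ∈ ball x r, ∀ p ∈ (D m).Pt, r ≤ ‖y - p‖ := by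
    intro y hy p hp
    have h1 := hm p hp
    have h2 : ‖y - x‖ < r := by simpa [dist_eq_norm] using hy
    have h3 : ‖p - x‖ ≤ ‖y - p‖ + ‖y - x‖ := by
      have : p - x = (y - x) - (y - p) := by ring
      rw [this]
      linarith [norm_sub_le (y - x) (y - p)]
    linarith
  obtain ⟨-, -, hadh, -⟩ := hADH n C (A m) (D m) (hgood m)
  have hcb := hCB1 (D m) (hgood m).rho
  obtain ⟨-, -, -, -, -, -, -, -, -, -, -, -, -, -, hPt, -⟩ := hcb
  refine ⟨?_, ?_⟩
  · intro y hy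
    refine (hadh y (hPt y ?_)).differentiableWithinAt
    intro hyP
    have := hfar y hy y hyP
    rw [sub_self, norm_zero] at this
    linarith
  · intro y hy
    have h2 : ‖y - x‖ < r := by simpa [dist_eq_norm] using hy
    have hyn : ‖y‖ ≤ ‖x‖ + 1 := by
      have : ‖y‖ ≤ ‖y - x‖ + ‖x‖ := by
        have := norm_add_le (y - x) x
        simpa using this
      linarith
    have hafx := hAF n (A m) (D m) (hgood m) r hr0 hr1 y (by simpa using hyn) (by
      intro i j hj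
      refine hfar y hy _ ⟨i, j, by omega, rfl⟩)
    have hs := hS.s m
    have hs0 := (hgood m).s0
    have hs1 := (hgood m).s1
    have hB : ‖(D m).B y‖ = (D m).s * ‖(D m).B0 y‖ := by
      unfold Dat.B
      rw [norm_mul, Complex.norm_real, Real.norm_of_nonneg hs0.le]
    have hB0 : ‖(D m).B0 y‖ ≤ K / r + ‖(D m).ca‖ + ‖(D m).cb‖ * (‖x‖ + 1) := by
      have e : (D m).B0 y = ((D m).B0 y - (D m).ca - (D m).cb * y) + ((D m).ca + (D m).cb * y) := by ring
      rw [e]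
      refine (norm_add_le _ _).trans ?_
      have h5 : ‖(D m).ca + (D m).cb * y‖ ≤ ‖(D m).ca‖ + ‖(D m).cb‖ * (‖x‖ + 1) := by
        refine (norm_add_le _ _).trans ?_
        rw [norm_mul]
        have := mul_le_mul_of_nonneg_left hyn (norm_nonneg (D m).cb)
        linarith
      linarith
    rw [hB]
    have hsum : (D m).s * (1 + ‖(D m).ca‖ + ‖(D m).cb‖) = 1 := by
      rw [hs]
      have : 0 < 1 + ‖(D m).ca‖ + ‖(D m).cb‖ := by positivity
      field_simp
    have hKr : 0 ≤ K / r := by positivity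
    have h6 : (D m).s * ‖(D m).B0 y‖ ≤ (D m).s * (K / r + ‖(D m).ca‖ + ‖(D m).cb‖ * (‖x‖ + 1)) :=
      mul_le_mul_of_nonneg_left hB0 hs0.le
    have h7 : (D m).s * (K / r) ≤ K / r := by
      have := mul_le_mul_of_nonneg_right hs1 hKr
      linarith
    have h8 : (D m).s * (‖(D m).ca‖ + ‖(D m).cb‖ * (‖x‖ + 1)) ≤ (‖x‖ + 1) := by
      have h9 : ‖(D m).ca‖ + ‖(D m).cb‖ * (‖x‖ + 1) ≤ (1 + ‖(D m).ca‖ + ‖(D m).cb‖) * (‖x‖ + 1) := by
        nlinarith [norm_nonneg (D m).ca, norm_nonneg (D m).cb, norm_nonneg x,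
          mul_nonneg (norm_nonneg (D m).ca) (norm_nonneg x)]
      have h10 := mul_le_mul_of_nonneg_left h9 hs0.le
      have h11 : (D m).s * ((1 + ‖(D m).ca‖ + ‖(D m).cb‖) * (‖x‖ + 1)) = ‖x‖ + 1 := by
        rw [← mul_assoc, hsum, one_mul]
      linarith
    have h12 : (D m).s * (K / r + ‖(D m).ca‖ + ‖(D m).cb‖ * (‖x‖ + 1))
        = (D m).s * (K / r) + (D m).s * (‖(D m).ca‖ + ‖(D m).cb‖ * (‖x‖ + 1)) := by ring
    linarith

end WPN
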