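import Pool.Agent.helper52.WP.SpecN

set_option autoImplicit false

open Complex Metric Set Filter Topology MeasureTheory
open V3S (UF)
open WP

noncomputable section

namespace WPN

theorem NNZ (hNZA : NZA_stmt) (hNZB : NZB_stmt) (hPIN : WPL.PIN_stmt) : NNZ_stmt := by
  intro n C D hC hS
  by_cases hs : Tendsto (fun m => (D m).s) UF (𝓝 0)
  · obtain ⟨α, β, hab, hF⟩ := hNZA n C D hC hS hs
    by_contra hcon
    push Not at hcon
    have hcount := (hPIN n C D hC hS).2.2.2.1
    have hsub : (univ : Set ℂ) ⊆ Pin D ∪ {-α / β} := by
      intro x _
      by_cases hx : x ∈ Pin D
      · exact Or.inl hx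
      · right
        have h1 := hcon x hx
        rw [hF x hx] at h1
        by_cases hb : β = 0
        · rw [hb, zero_mul, add_zero] at h1
          exact absurd hb (hab.resolve_left (fun h => h h1))
        · have : x = -α / β := by
            field_simp
            linear_combination h1
          exact this
    have hc : (univ : Set ℂ).Countable :=
      (hcount.union (countable_singleton _)).mono hsub
    exact not_countable_complex hc
  · exact hNZB n C D hC hS hs

end WPN
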